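import Pool.Agent.helper97.KR.Spec

/-!
# Row kr:I4 (helper15, second prover) of project KR (helper97)
-/

set_option autoImplicit false

namespace Pool.Agent.helper97.KR

open Finset Classical

noncomputable section

/-- the other end of an edge at `v` -/
private theorem I4_end {V E : Type} (ends : E → Sym2 V) (S : Finset V) (F : Finset E) (v : V)
    (hg : G3 ends S F) (y : E) (hy : y ∈ F) (hv : v ∈ ends y) :
    ∃ c, c ∈ S.erase v ∧ ends y = s(v, c) := by
  obtain ⟨c, hc⟩ := hv
  refine ⟨c, ?_, hc⟩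
  rw [Finset.mem_erase]
  constructor
  · intro h
    subst h
    exact hg.loop y hy (by rw [hc]; exact Sym2.diag_isDiag c)
  · exact hg.sub y hy c (by rw [hc]; exact Sym2.mem_mk_right v c)

/-- replacing the element `x1` by `z` in a sequence -/
private def I4_rep {E : Type} (c : ℤ → E) (x1 z : E) : ℤ → E := fun j => if c j = x1 then z else c j

private theorem I4_rep_image_in {E : Type} (c : ℤ → E) (x1 z : E) (I : Set ℤ) (h : x1 ∈ c '' I) :
    I4_rep c x1 z '' I = insert z ((c '' I) \ {x1}) := by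
  ext y
  simp only [I4_rep, Set.mem_image, Set.mem_insert_iff, Set.mem_sdiff, Set.mem_singleton_iff]
  constructor
  · rintro ⟨j, hj, rfl⟩
    by_cases hc : c j = x1
    · left
      rw [if_pos hc]
    · right
      rw [if_neg hc]
      exact ⟨⟨j, hj, rfl⟩, hc⟩
  · rintro (rfl | ⟨⟨j, hj, rfl⟩, hc⟩)
    · obtain ⟨j, hj, hc⟩ := h
      exact ⟨j, hj, by rw [if_pos hc]⟩
    · exact ⟨j, hj, by rw [if_neg hc]⟩

private theorem I4_rep_image_out {E : Type} (c : ℤ → E) (x1 z : E) (I : Set ℤ) (h : x1 ∉ c '' I) :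
    I4_rep c x1 z '' I = c '' I := by
  apply Set.image_congr
  intro j hj
  unfold I4_rep
  rw [if_neg]
  intro hc
  exact h ⟨j, hj, hc⟩

private theorem I4_rep_bij {E : Type} (c : ℤ → E) (x1 z : E) (I : Set ℤ) (A : Set E)
    (hb : Set.BijOn c I A) (h : x1 ∈ A) (hz : z ∉ A ∨ z = x1) :
    Set.BijOn (I4_rep c x1 z) I (insert z (A \ {x1})) := by
  have himg : c '' I = A := hb.image_eq
  have h1 : I4_rep c x1 z '' I = insert z (A \ {x1}) := by
    rw [I4_rep_image_in c x1 z I (by rw [himg]; exact h), himg]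
  rw [← h1]
  apply Set.InjOn.bijOn_image
  intro i hi j hj hij
  apply hb.injOn hi hj
  unfold I4_rep at hij
  by_cases hci : c i = x1
  · by_cases hcj : c j = x1
    · rw [hci, hcj]
    · rw [if_pos hci, if_neg hcj] at hij
      rcases hz with hz | hz
      · exact absurd (hij ▸ hb.mapsTo hj) hz
      · exact absurd (hij.symm.trans hz) hcj
  · by_cases hcj : c j = x1
    · rw [if_neg hci, if_pos hcj] at hij
      rcases hz with hz | hz
      · exact absurd (hij ▸ hb.mapsTo hi) hz
      · exact absurd (hij.trans hz) hci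
    · rw [if_neg hci, if_neg hcj] at hij
      exact hij

/-- the ordering from a good choice of `z` -/
private theorem I4_core (hINS : INS_stmt) (hCN4 : CN4_stmt) (V E : Type) (ends : E → Sym2 V)
    (S : Finset V) (F : Finset E) (v a b : V) (x1 x2 u2 u3 z z' : E) (m : ℤ)
    (hD : D4 ends S F v a b x1 x2 u2 u3) (hm : 1 ≤ m) (hmS : (S.card : ℤ) = m + 2) (c : ℤ → E)
    (h1 : ∀ j, c (j + 3 * m) = c j)
    (h2 : Set.BijOn c (Set.Ico 0 (3 * m)) ((F \ {x2, u2, u3} : Finset E) : Set E))
    (h3 : ∀ j, Con (Function.update ends x1 s(a, b)) (S.erase v) (c '' Set.Ico j (j + m)))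
    (h4 : ∀ j, c j = x1 ↔ 3 * m ∣ j + 1)
    (hzz : (z = x1 ∧ z' = x2) ∨ (z = x2 ∧ z' = x1))
    (hgood : Con ends (insert v (S.erase v))
      (insert u3 (insert z ((c '' Set.Ico (2 * m) (2 * m + m)) \ {x1})))) :
    KO ends S F := by
  intro _
  have hx1 : x1 ∈ F ∧ v ∈ ends x1 := (hD.all x1).2 (Or.inl rfl)
  have hx2 : x2 ∈ F ∧ v ∈ ends x2 := (hD.all x2).2 (Or.inr (Or.inl rfl))
  have hu2 : u2 ∈ F ∧ v ∈ ends u2 := (hD.all u2).2 (Or.inr (Or.inr (Or.inl rfl)))
  have hu3 : u3 ∈ F ∧ v ∈ ends u3 := (hD.all u3).2 (Or.inr (Or.inr (Or.inr rfl)))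
  obtain ⟨c2, hc2S, hc2⟩ := I4_end ends S F v hD.g u2 hu2.1 hu2.2
  obtain ⟨c3, hc3S, hc3⟩ := I4_end ends S F v hD.g u3 hu3.1 hu3.2
  have haS : a ∈ S.erase v := Finset.mem_erase.2 ⟨hD.av, hD.aS⟩
  have hbS : b ∈ S.erase v := Finset.mem_erase.2 ⟨hD.bv, hD.bS⟩
  have hvS : v ∉ S.erase v := Finset.notMem_erase v S
  have hins : insert v (S.erase v) = S := Finset.insert_erase hD.vS
  have hx1A : x1 ∈ ((F \ {x2, u2, u3} : Finset E) : Set E) := by
    have n12 := hD.n12
    have n13 := hD.n13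
    have n14 := hD.n14
    simp only [Finset.coe_sdiff, Set.mem_sdiff, Finset.mem_coe, Finset.coe_insert,
      Finset.coe_singleton, Set.mem_insert_iff, Set.mem_singleton_iff, not_or]
    exact ⟨hx1.1, n12, n13, n14⟩
  set A0 : Set E := ((F \ {x2, u2, u3} : Finset E) : Set E) with hA0
  have hmem0 : ∀ e, e ∈ A0 ↔ e ∈ F ∧ e ≠ x2 ∧ e ≠ u2 ∧ e ≠ u3 := by
    intro e
    rw [hA0]
    simp only [Finset.coe_sdiff, Set.mem_sdiff, Finset.mem_coe, Finset.coe_insert,
      Finset.coe_singleton, Set.mem_insert_iff, Set.mem_singleton_iff, not_or, ne_eq]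
  have hzA : z ∉ A0 ∨ z = x1 := by
    rcases hzz with ⟨h, _⟩ | ⟨h, _⟩
    · exact Or.inr h
    · left
      rw [hmem0, h]
      exact fun hh => hh.2.1 rfl
  have hb := I4_rep_bij c x1 z _ A0 h2 hx1A hzA
  have hper : ∀ j, I4_rep c x1 z (j + 3 * m) = I4_rep c x1 z j := by
    intro j
    unfold I4_rep
    rw [h1 j]
  have n12 := hD.n12
  have n13 := hD.n13
  have n14 := hD.n14
  have n23 := hD.n23
  have n24 := hD.n24
  have n34 := hD.n34
  have hmemA : ∀ e, e ∈ insert z (A0 \ {x1}) ↔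
      e = z ∨ (e ∈ F ∧ e ≠ x2 ∧ e ≠ u2 ∧ e ≠ u3 ∧ e ≠ x1) := by
    intro e
    rw [Set.mem_insert_iff, Set.mem_sdiff, hmem0, Set.mem_singleton_iff]
    tauto
  have hy0 : z' ∉ insert z (A0 \ {x1}) := by
    rw [hmemA]
    rcases hzz with ⟨h, h'⟩ | ⟨h, h'⟩
    · rw [h, h']
      rintro (h5 | h5)
      · exact n12 h5.symm
      · exact h5.2.1 rfl
    · rw [h, h']
      rintro (h5 | h5)
      · exact n12 h5
      · exact h5.2.2.2.2 rfl
  have hy1 : u2 ∉ insert z (A0 \ {x1}) := by
    rw [hmemA]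
    rcases hzz with ⟨h, _⟩ | ⟨h, _⟩
    · rw [h]
      rintro (h5 | h5)
      · exact n13 h5.symm
      · exact h5.2.2.1 rfl
    · rw [h]
      rintro (h5 | h5)
      · exact n23 h5.symm
      · exact h5.2.2.1 rfl
  have hy2 : u3 ∉ insert z (A0 \ {x1}) := by
    rw [hmemA]
    rcases hzz with ⟨h, _⟩ | ⟨h, _⟩
    · rw [h]
      rintro (h5 | h5)
      · exact n14 h5.symm
      · exact h5.2.2.2.1 rfl
    · rw [h]
      rintro (h5 | h5)
      · exact n24 h5.symm
      · exact h5.2.2.2.1 rfl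
  have hz'u2 : z' ≠ u2 := by
    rcases hzz with ⟨_, h⟩ | ⟨_, h⟩
    · rw [h]; exact n23
    · rw [h]; exact n13
  have hz'u3 : z' ≠ u3 := by
    rcases hzz with ⟨_, h⟩ | ⟨_, h⟩
    · rw [h]; exact n24
    · rw [h]; exact n14
  obtain ⟨e, he1, he2, he3⟩ := hINS E m (I4_rep c x1 z) (insert z (A0 \ {x1})) z' u2 u3 hm hper hb
    hy0 hy1 hy2 hz'u2 hz'u3 n34
  have hcard : (S.card : ℤ) - 1 = m + 1 := by omega
  have hall : insert z (A0 \ {x1}) ∪ {z', u2, u3} = (F : Set E) := by
    ext y
    rw [Set.mem_union, hmemA, Set.mem_insert_iff, Set.mem_insert_iff, Set.mem_singleton_iff,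
      Finset.mem_coe]
    constructor
    · rintro ((h | h) | h | h | h)
      · rcases hzz with ⟨h', _⟩ | ⟨h', _⟩
        · rw [h, h']; exact hx1.1
        · rw [h, h']; exact hx2.1
      · exact h.1
      · rcases hzz with ⟨_, h'⟩ | ⟨_, h'⟩
        · rw [h, h']; exact hx2.1
        · rw [h, h']; exact hx1.1
      · rw [h]; exact hu2.1
      · rw [h]; exact hu3.1
    · intro h
      by_cases h5 : y = x1
      · rcases hzz with ⟨h6, h7⟩ | ⟨h6, h7⟩
        · left; left; rw [h5, h6]
        · right; left; rw [h5, h7]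
      · by_cases h8 : y = x2
        · rcases hzz with ⟨h6, h7⟩ | ⟨h6, h7⟩
          · right; left; rw [h8, h7]
          · left; left; rw [h8, h6]
        · by_cases h9 : y = u2
          · right; right; left; exact h9
          · by_cases h10 : y = u3
            · right; right; right; exact h10
            · left; right; exact ⟨h, h8, h9, h10, h5⟩
  refine ⟨e, ?_, ?_, ?_⟩
  · rw [hcard]
    exact he1
  · rw [hcard, ← hall]
    exact he2
  · intro j
    rw [hcard]
    have hout : ∀ i, 0 ≤ i → i < 2 * m → x1 ∉ c '' Set.Ico i (i + m) := by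
      rintro i hi0 hi1 ⟨k, hk, hck⟩
      rw [Set.mem_Ico] at hk
      have h5 := (h4 k).1 hck
      have h6 := Int.le_of_dvd (by omega) h5
      omega
    obtain ⟨i, h | h | h⟩ := he3 j
    · obtain ⟨_, _, hw⟩ := h
      rw [hw]
      have hC := h3 i
      by_cases hin : x1 ∈ c '' Set.Ico i (i + m)
      · rw [I4_rep_image_in c x1 z _ hin]
        have h5 := (hCN4 V E ends (S.erase v) v a b a x1 x2 x1 _ hvS haS hbS haS hD.e1 hD.e2 hD.e1
          hC).2.1 hin
        rw [hins] at h5
        have h6 : insert z' (insert z ((c '' Set.Ico i (i + m)) \ {x1})) =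
            insert x2 (c '' Set.Ico i (i + m)) := by
          ext y
          simp only [Set.mem_insert_iff, Set.mem_sdiff, Set.mem_singleton_iff]
          constructor
          · rcases hzz with ⟨h6, h7⟩ | ⟨h6, h7⟩
            · rw [h6, h7]
              rintro (h | h | h)
              · exact Or.inl h
              · exact Or.inr (h ▸ hin)
              · exact Or.inr h.1
            · rw [h6, h7]
              rintro (h | h | h)
              · exact Or.inr (h ▸ hin)
              · exact Or.inl h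
              · exact Or.inr h.1
          · intro h
            rcases hzz with ⟨h6, h7⟩ | ⟨h6, h7⟩
            · rw [h6, h7]
              rcases h with h | h
              · exact Or.inl h
              · by_cases hy : y = x1
                · exact Or.inr (Or.inl hy)
                · exact Or.inr (Or.inr ⟨h, hy⟩)
            · rw [h6, h7]
              rcases h with h | h
              · exact Or.inr (Or.inl h)
              · by_cases hy : y = x1
                · exact Or.inl hy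
                · exact Or.inr (Or.inr ⟨h, hy⟩)
        rw [h6]
        exact h5
      · rw [I4_rep_image_out c x1 z _ hin]
        rcases hzz with ⟨_, h7⟩ | ⟨_, h7⟩
        · rw [h7]
          have h5 := (hCN4 V E ends (S.erase v) v a b b x1 x2 x2 _ hvS haS hbS hbS hD.e1 hD.e2
            hD.e2 hC).1 hin
          rw [hins] at h5
          exact h5
        · rw [h7]
          have h5 := (hCN4 V E ends (S.erase v) v a b a x1 x2 x1 _ hvS haS hbS haS hD.e1 hD.e2
            hD.e1 hC).1 hin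
          rw [hins] at h5
          exact h5
    · obtain ⟨hi0, hi1, hw⟩ := h
      rw [hw]
      have hin := hout i hi0 (by omega)
      rw [I4_rep_image_out c x1 z _ hin]
      have h5 := (hCN4 V E ends (S.erase v) v a b c2 x1 x2 u2 _ hvS haS hbS hc2S hD.e1 hD.e2
        hc2 (h3 i)).1 hin
      rw [hins] at h5
      exact h5
    · obtain ⟨hi0, hi1, hw⟩ := h
      rw [hw]
      rcases lt_or_eq_of_le hi1 with hlt | heq
      · have hin := hout i (by omega) hlt
        rw [I4_rep_image_out c x1 z _ hin]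
        have h5 := (hCN4 V E ends (S.erase v) v a b c3 x1 x2 u3 _ hvS haS hbS hc3S hD.e1 hD.e2
          hc3 (h3 i)).1 hin
        rw [hins] at h5
        exact h5
      · rw [heq]
        have hin : x1 ∈ c '' Set.Ico (2 * m) (2 * m + m) := by
          refine ⟨3 * m - 1, ?_, ?_⟩
          · rw [Set.mem_Ico]
            omega
          · rw [h4]
            exact ⟨1, by ring⟩
        rw [I4_rep_image_in c x1 z _ hin]
        rw [hins] at hgood
        exact hgood

/-- Row I4. -/
theorem I4 (hSHF : SHF_stmt) (hINS : INS_stmt) (hCN4 : CN4_stmt) : I4_stmt := by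
  intro V E ends S F v a b x1 x2 u2 u3 hD hKO
  have hx1 : x1 ∈ F ∧ v ∈ ends x1 := (hD.all x1).2 (Or.inl rfl)
  have hu3 : u3 ∈ F ∧ v ∈ ends u3 := (hD.all u3).2 (Or.inr (Or.inr (Or.inr rfl)))
  have haS : a ∈ S.erase v := Finset.mem_erase.2 ⟨hD.av, hD.aS⟩
  have hbS : b ∈ S.erase v := Finset.mem_erase.2 ⟨hD.bv, hD.bS⟩
  have hvS : v ∉ S.erase v := Finset.notMem_erase v S
  have hcard : (S.erase v).card + 1 = S.card := Finset.card_erase_add_one hD.vS
  have htwo : 2 ≤ (S.erase v).card := by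
    have h5 : ({a, b} : Finset V) ⊆ S.erase v := by
      intro w hw
      rw [Finset.mem_insert, Finset.mem_singleton] at hw
      rcases hw with rfl | rfl
      · exact haS
      · exact hbS
    have h6 := Finset.card_le_card h5
    rw [Finset.card_pair hD.ab] at h6
    exact h6
  obtain ⟨c, h1, h2, h3⟩ := hKO htwo
  set m : ℤ := ((S.erase v).card : ℤ) - 1 with hmdef
  have hm : 1 ≤ m := by omega
  have hmS : (S.card : ℤ) = m + 2 := by omega
  have hx1A : x1 ∈ ((F \ {x2, u2, u3} : Finset E) : Set E) := by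
    have n12 := hD.n12
    have n13 := hD.n13
    have n14 := hD.n14
    simp only [Finset.coe_sdiff, Set.mem_sdiff, Finset.mem_coe, Finset.coe_insert,
      Finset.coe_singleton, Set.mem_insert_iff, Set.mem_singleton_iff, not_or]
    exact ⟨hx1.1, n12, n13, n14⟩
  obtain ⟨j0, hj0, hcj0⟩ := h2.surjOn hx1A
  obtain ⟨s1, s2, s3⟩ := hSHF E (3 * m) (j0 + 1) c _ (by omega) h1 h2
  have g1 : ∀ j, (fun j => c (j + (j0 + 1))) (j + 3 * m) = (fun j => c (j + (j0 + 1))) j := by
    intro j
    show c (j + 3 * m + (j0 + 1)) = c (j + (j0 + 1))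
    rw [show j + 3 * m + (j0 + 1) = (j + (j0 + 1)) + 3 * m by ring]
    exact h1 _
  have g3 : ∀ j, Con (Function.update ends x1 s(a, b)) (S.erase v)
      ((fun j => c (j + (j0 + 1))) '' Set.Ico j (j + m)) := by
    intro j
    have h5 : (fun j => c (j + (j0 + 1))) '' Set.Ico j (j + m) =
        c '' Set.Ico (j + (j0 + 1)) (j + (j0 + 1) + m) := by
      ext y
      constructor
      · rintro ⟨k, hk, rfl⟩
        rw [Set.mem_Ico] at hk
        exact ⟨k + (j0 + 1), by rw [Set.mem_Ico]; omega, rfl⟩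
      · rintro ⟨k, hk, rfl⟩
        rw [Set.mem_Ico] at hk
        refine ⟨k - (j0 + 1), by rw [Set.mem_Ico]; omega, ?_⟩
        show c (k - (j0 + 1) + (j0 + 1)) = c k
        rw [sub_add_cancel]
    rw [h5]
    exact h3 _
  have g4 : ∀ j, (fun j => c (j + (j0 + 1))) j = x1 ↔ 3 * m ∣ j + 1 := by
    intro j
    show c (j + (j0 + 1)) = x1 ↔ _
    rw [← hcj0, s3, show j + (j0 + 1) - j0 = j + 1 by ring]
  obtain ⟨c3, hc3S, hc3⟩ := I4_end ends S F v hD.g u3 hu3.1 hu3.2
  have hin : x1 ∈ (fun j => c (j + (j0 + 1))) '' Set.Ico (2 * m) (2 * m + m) := by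
    refine ⟨3 * m - 1, ?_, ?_⟩
    · rw [Set.mem_Ico]
      omega
    · rw [g4]
      exact ⟨1, by ring⟩
  rcases (hCN4 V E ends (S.erase v) v a b c3 x1 x2 u3 _ hvS haS hbS hc3S hD.e1 hD.e2
      hc3 (g3 (2 * m))).2.2 hin with hg | hg
  · exact I4_core hINS hCN4 V E ends S F v a b x1 x2 u2 u3 x1 x2 m hD hm hmS _ g1 s2 g3 g4
      (Or.inl ⟨rfl, rfl⟩) hg
  · exact I4_core hINS hCN4 V E ends S F v a b x1 x2 u2 u3 x2 x1 m hD hm hmS _ g1 s2 g3 g4
      (Or.inr ⟨rfl, rfl⟩) hg

end

end Pool.Agent.helper97.KR
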