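import Pool.Agent.helper97.KR.Spec

/-!
# Row kr:TY (helper15) of project KR (helper97): the notions for types
-/

set_option autoImplicit false

namespace Pool.Agent.helper97.KR

open Finset Classical

noncomputable section

private theorem TY_first (hCC : CC_stmt) (hLP : LP_stmt) (V E : Type) [Fintype V] [Fintype E]
    (ends : E → Sym2 V) (h2 : 2 ≤ Fintype.card V) :
    ThreeTrees ends ↔ G3 ends univ univ := by
  have : Nonempty V := Fintype.card_pos_iff.1 (by omega)
  constructor
  · rintro ⟨T, hT, hdis, hcov⟩
    have hcoe : ∀ i, (((univ : Finset E).filter (fun e => e ∈ T i) : Finset E) : Set E) = T i := by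
      intro i
      ext e
      simp
    have hcard : ∀ i, ((univ : Finset E).filter (fun e => e ∈ T i)).card + 1 =
        (univ : Finset V).card := by
      intro i
      have h1 := (hT i).2
      rw [← hcoe i, Set.ncard_coe_finset] at h1
      rw [Finset.card_univ]
      exact h1
    have hcon : ∀ i, Con ends univ (((univ : Finset E).filter (fun e => e ∈ T i) : Finset E) : Set E) := by
      intro i
      rw [hcoe i]
      exact (hCC V E ends (T i)).1 (hT i).1
    refine ⟨Finset.univ_nonempty, fun e _ v _ => Finset.mem_univ v, ?_, ?_⟩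
    · intro e _
      obtain ⟨i, hi⟩ := hcov e
      refine (hLP V E ends univ _ (fun e _ v _ => Finset.mem_univ v) (hcon i) (hcard i)).1 e ?_
      simpa using hi
    · refine ⟨fun i => (univ : Finset E).filter (fun e => e ∈ T i), hcard, hcon, ?_, ?_⟩
      · intro i j hij
        rw [Finset.disjoint_left]
        intro e he he'
        simp only [Finset.mem_filter, Finset.mem_univ, true_and] at he he'
        exact Set.disjoint_left.1 (hdis i j hij) he he'
      · intro e
        refine ⟨fun _ => ?_, fun _ => Finset.mem_univ e⟩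
        obtain ⟨i, hi⟩ := hcov e
        exact ⟨i, by simpa using hi⟩
  · rintro ⟨_, _, _, T, hcard, hcon, hdis, hcov⟩
    refine ⟨fun i => (T i : Set E), fun i => ⟨(hCC V E ends _).2 (hcon i), ?_⟩, ?_, ?_⟩
    · rw [Set.ncard_coe_finset, ← Finset.card_univ]
      exact hcard i
    · intro i j hij
      exact Finset.disjoint_coe.2 (hdis i j hij)
    · intro e
      obtain ⟨i, hi⟩ := (hcov e).1 (Finset.mem_univ e)
      exact ⟨i, hi⟩

private theorem TY_second (hCC : CC_stmt) (hSHF : SHF_stmt) (V E : Type) [Fintype V] [Fintype E]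
    (ends : E → Sym2 V) (h2 : 2 ≤ Fintype.card V) :
    CyclicOrdering ends ↔ KO ends univ univ := by
  have : Nonempty V := Fintype.card_pos_iff.1 (by omega)
  unfold CyclicOrdering KO
  rw [Finset.card_univ]
  constructor
  · rintro ⟨c, h1, h3, h4⟩ _
    refine ⟨c, h1, ?_, fun j => (hCC V E ends _).1 (h4 j).1⟩
    rw [Finset.coe_univ]
    exact h3
  · intro h
    obtain ⟨c, h1, h3, h4⟩ := h h2
    refine ⟨c, h1, ?_, fun j => ⟨(hCC V E ends _).2 (h4 j), ?_⟩⟩
    · rw [Finset.coe_univ] at h3
      exact h3
    · have h5 := (hSHF E (3 * ((Fintype.card V : ℤ) - 1)) 0 c _ (by omega) h1 h3).2.2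
      have hinj : Set.InjOn c (Set.Ico j (j + ((Fintype.card V : ℤ) - 1))) := by
        intro x hx y hy hxy
        rw [Set.mem_Ico] at hx hy
        have h6 := (h5 x y).1 hxy
        have h7 : x - y = 0 := by
          apply Int.eq_zero_of_abs_lt_dvd h6
          rw [abs_lt]
          constructor <;> omega
        omega
      rw [hinj.ncard_image, ← Finset.coe_Ico, Set.ncard_coe_finset, Int.card_Ico]
      omega

/-- Row TY. -/
theorem TY (hCC : CC_stmt) (hLP : LP_stmt) (hSHF : SHF_stmt) : TY_stmt := by
  intro V E _ _ ends h2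
  exact ⟨TY_first hCC hLP V E ends h2, fun _ => TY_second hCC hSHF V E ends h2⟩

end

end Pool.Agent.helper97.KR
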